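import Pool.Agent.Y157.PV.Fix
import Pool.Agent.Y157.PS.Num

/-! # The element `δ` and the branch points at a prime -/

set_option autoImplicit false
set_option linter.all false

open Polynomial FF

namespace Pool.Agent.Y157.PV

open Pool.Agent.Y157.PS

section main

variable {A k F Ω : Type} [CommRing A] [IsDomain A] [IsDiscreteValuationRing A]
    [Finite (IsLocalRing.ResidueField A)] [Field k] [CharZero k] [Algebra A k] [IsFractionRing A k]
    [Field F] [Field Ω] [Algebra k F] [Algebra F Ω] [Algebra k Ω] [IsScalarTower k F Ω]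
    [IsAlgClosed Ω] [Algebra.IsAlgebraic F Ω]

theorem unit_isU (V : ValuationSubring (algebraicClosure k Ω))
    (hVA : ∀ a : A, algebraMap k (algebraicClosure k Ω) (algebraMap A k a) ∈ V) (b : A)
    (hb : IsUnit b) : IsU V (algebraMap k (algebraicClosure k Ω) (algebraMap A k b)) := by
  obtain ⟨b, rfl⟩ := hb
  let i : A →+* algebraicClosure k Ω :=
    (algebraMap k (algebraicClosure k Ω)).comp (algebraMap A k)
  change IsU V (i b)
  refine ⟨(b.isUnit.map i).ne_zero, hVA _, ?_⟩
  have h1 : (i (b : A))⁻¹ = i ((b⁻¹ : Aˣ) : A) := by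
    refine inv_eq_of_mul_eq_one_right ?_
    rw [← map_mul, Units.mul_inv, map_one]
  rw [h1]
  exact hVA _

theorem data {ℓ : ℕ} [Fact ℓ.Prime] (V : ValuationSubring (algebraicClosure k Ω))
    (hVA : ∀ a : A, algebraMap k (algebraicClosure k Ω) (algebraMap A k a) ∈ V)
    (hVm : ∀ a ∈ IsLocalRing.maximalIdeal A,
      algebraMap k (algebraicClosure k Ω) (algebraMap A k a) ∈ V.nonunits)
    (hℓ : IsUnit (ℓ : A)) (f : A[X]) (hlc : IsUnit f.leadingCoeff)
    (hs : (f.map (IsLocalRing.residue A)).Separable) (ϖ : A) (hϖ : Irreducible ϖ) (d : k) (m : ℤ)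
    (hm : ¬ (ℓ : ℤ) ∣ m) (t : A) (ht : IsUnit t) (hd : d = algebraMap A k t * algebraMap A k ϖ ^ m)
    (δ : algebraicClosure k Ω) (hδ : δ ^ ℓ =
      algebraMap k (algebraicClosure k Ω) (d / (f.map (algebraMap A k)).leadingCoeff)) :
    (f.map (algebraMap A k)).Separable ∧
    (letI : Algebra A (algebraicClosure k Ω) :=
      ((algebraMap k (algebraicClosure k Ω)).comp (algebraMap A k)).toAlgebra
     haveI : IsScalarTower A k (algebraicClosure k Ω) :=
      IsScalarTower.of_algebraMap_eq (fun _ => rfl)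
     Base ℓ A k (algebraicClosure k Ω) V ϖ δ m) ∧
    ∀ B : Finset (algebraicClosure k Ω), (∀ θ, θ ∈ B ↔ aeval θ (f.map (algebraMap A k)) = 0) →
      Good V B := by
  classical
  have hℓp : ℓ.Prime := Fact.out
  have hac : IsAlgClosure k (algebraicClosure k Ω) := inferInstance
  have hkb : IsAlgClosed (algebraicClosure k Ω) := hac.1
  letI : Algebra A (algebraicClosure k Ω) :=
    ((algebraMap k (algebraicClosure k Ω)).comp (algebraMap A k)).toAlgebra
  haveI hst : IsScalarTower A k (algebraicClosure k Ω) :=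
    IsScalarTower.of_algebraMap_eq (fun _ => rfl)
  have hVa : ∀ a : A, algebraMap A (algebraicClosure k Ω) a ∈ V := hVA
  have hVm' : ∀ a ∈ IsLocalRing.maximalIdeal A, algebraMap A (algebraicClosure k Ω) a ∈
    V.nonunits := hVm
  have hunit : ∀ b : A, IsUnit b → IsU V (algebraMap A (algebraicClosure k Ω) b) :=
    fun b hb => unit_isU V hVA b hb
  have hAk : Function.Injective (algebraMap A k) := IsFractionRing.injective A k
  have hAinj : Function.Injective (algebraMap A (algebraicClosure k Ω)) := by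
    rw [IsScalarTower.algebraMap_eq A k (algebraicClosure k Ω)]
    exact (algebraMap k (algebraicClosure k Ω)).injective.comp hAk
  have hlcA : algebraMap A k f.leadingCoeff ≠ 0 := by
    rw [Ne, map_eq_zero_iff _ hAk]
    exact hlc.ne_zero
  have hlck : (f.map (algebraMap A k)).leadingCoeff = algebraMap A k f.leadingCoeff :=
    leadingCoeff_map_of_leadingCoeff_ne_zero _ hlcA
  rw [hlck] at hδ
  obtain ⟨hnd, hdist⟩ := Pool.Agent.W623.SecC.roots_distinct V hVa hVm' f hlc hs
  have hlc0 : algebraMap A (algebraicClosure k Ω) f.leadingCoeff ≠ 0 := (hunit _ hlc).1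
  have hP0 : f.map (algebraMap A (algebraicClosure k Ω)) ≠ 0 := by
    intro h
    apply hlc0
    rw [← leadingCoeff_map_of_leadingCoeff_ne_zero _ hlc0, h, leadingCoeff_zero]
  have hPk : f.map (algebraMap A (algebraicClosure k Ω)) =
      (f.map (algebraMap A k)).map (algebraMap k (algebraicClosure k Ω)) := by
    rw [Polynomial.map_map, ← IsScalarTower.algebraMap_eq]
  refine ⟨?_, ?_, ?_⟩
  · have h1 : (f.map (algebraMap A (algebraicClosure k Ω))).Separable :=
      (nodup_roots_iff_of_splits hP0 (IsAlgClosed.splits _)).1 hnd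
    rw [hPk] at h1
    exact (Polynomial.separable_map _).1 h1
  · refine ⟨hℓ, hVa, hVm', hϖ, hm, ⟨_, hδ⟩, ?_⟩
    have h1 : δ ^ ℓ / algebraMap A (algebraicClosure k Ω) ϖ ^ m =
        algebraMap A (algebraicClosure k Ω) t /
          algebraMap A (algebraicClosure k Ω) f.leadingCoeff := by
      have h2 : algebraMap A (algebraicClosure k Ω) ϖ ≠ 0 := by
        rw [Ne, map_eq_zero_iff _ hAinj]
        exact hϖ.ne_zero
      have h5 : algebraMap A (algebraicClosure k Ω) ϖ ^ m ≠ 0 := zpow_ne_zero _ h2
      rw [hδ, hd, map_div₀, map_mul, map_zpow₀, ← IsScalarTower.algebraMap_apply,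
        ← IsScalarTower.algebraMap_apply, ← IsScalarTower.algebraMap_apply]
      field_simp
    rw [h1]
    exact (hunit t ht).div (hunit _ hlc)
  · intro B hB
    have hroot : ∀ θ, θ ∈ B ↔ θ ∈ (f.map (algebraMap A (algebraicClosure k Ω))).roots := by
      intro θ
      rw [hB, mem_roots hP0, IsRoot.def, hPk, eval_map]
      rfl
    have haev : ∀ θ, θ ∈ B → aeval θ f = 0 := by
      intro θ hθ
      have h1 := (hroot θ).1 hθ
      rw [mem_roots hP0, IsRoot.def, eval_map] at h1
      exact h1
    constructor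
    · intro e he
      exact Pool.Agent.W308.SecC.root_mem V hVa f hlc _ (haev e he)
    · intro e he e' he' hne
      exact hdist e ((hroot e).1 he) e' ((hroot e').1 he') hne

end main

end Pool.Agent.Y157.PV
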