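import Pool.Agent.Y157.PV.Stm

/-! # One element of the inertia group determines the place -/

set_option autoImplicit false
set_option linter.all false

open Polynomial FF

namespace Pool.Agent.Y157.PV

open Pool.Agent.Y157.PS

theorem ut' (hEXF : S_EXF) (hUNQ : S_UNQ) (hSTAB : S_STAB) (hCONJ : S_CONJ) (hG2 : S_G2)
    (hG3 : S_G3) (hGEX : S_GEX) (hGUN : S_GUN) (hWGT : S_WGT) : S_UT := by
  intro ℓ _ A k κ R M _ _ _ _ _ _ _ _ _ _ _ _ _ _ _ _ _ _ _ V ϖ δ m hB x B Y hC hGood F _ r hr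
    D s hs τ hτ hτδ
  have hac : IsAlgClosed κ := IsAlgClosure.isAlgClosed k
  have hcz : CharZero κ := charZero_of_injective_algebraMap (algebraMap k κ).injective
  have hp := (Fact.out : ℓ.Prime).pos
  have hℓ : IsU V (ℓ : κ) := hB.isU
  have hδ0 := hB.δ0
  obtain ⟨e0, he0⟩ : B.Nonempty := by
    rw [← Finset.card_pos]
    have := hC.three
    omega
  have hRot := hGEX ℓ κ R M x B Y hC F V r hr hGood D
  obtain ⟨O, -, -, hO, -⟩ := hRot e0 he0
  have hun : ∀ O' : ValuationSubring M, Gauss V (algebraMap R M x) O' → O' = O :=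
    fun O' h => hGUN ℓ κ R M x B Y hC V hRot O' O h hO
  have hYU : IsU O Y := hC.Y_isU hGood hO
  have hY0 : Y ≠ 0 := hYU.1
  have hconst : ∀ (γ : M ≃ₐ[R] M) (c : κ), γ (algebraMap κ M c) = algebraMap κ M c := by
    intro γ c
    rw [IsScalarTower.algebraMap_apply κ R M, γ.commutes]
  have st : ∀ σ : κ ≃ₐ[k] κ, Dec V σ → ∀ z, s σ z ∈ O ↔ z ∈ O := fun σ hσ =>
    hO.stable hun (s σ) (σ : κ ≃+* κ) (hs.const σ) (hs.fixx σ) hσ
  have stn : ∀ σ : κ ≃ₐ[k] κ, Dec V σ → ∀ z, s σ z ∈ O.nonunits ↔ z ∈ O.nonunits := fun σ hσ =>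
    stable_non (st σ hσ)
  have gt : ∀ (γ : M ≃ₐ[R] M) z, γ z ∈ O ↔ z ∈ O := fun γ => hO.stable' hun γ
  have gtn : ∀ (γ : M ≃ₐ[R] M) z, γ z ∈ O.nonunits ↔ z ∈ O.nonunits := fun γ =>
    stable_non (τ := (γ : M ≃+* M)) (gt γ)
  have wgt : ∀ σ : κ ≃ₐ[k] κ, Ine V σ → σ δ = δ → ∀ z ∈ O, s σ z - z ∈ O.nonunits :=
    hWGT ℓ A k κ R M V ϖ δ m hB x B Y hC hGood F r hr D s hs O hO hun
  have UL : ∀ γ γ' : M ≃ₐ[R] M, (∀ z ∈ O, γ z - γ' z ∈ O.nonunits) → γ = γ' :=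
    unique_lift hG2 hC hℓ hO hun
  have smul : ∀ (σ σ' : κ ≃ₐ[k] κ) z, s (σ * σ') z = s σ (s σ' z) := by
    intro σ σ' z
    rw [map_mul]; rfl
  have sinv : ∀ (σ : κ ≃ₐ[k] κ) z, s σ⁻¹ (s σ z) = z := by
    intro σ z
    rw [← smul, inv_mul_cancel, map_one]; rfl
  have sinv' : ∀ (σ : κ ≃ₐ[k] κ) z, s σ (s σ⁻¹ z) = z := by
    intro σ z
    rw [← smul, mul_inv_cancel, map_one]; rfl
  have ssymm : ∀ (σ : κ ≃ₐ[k] κ) z, (s σ).symm z = s σ⁻¹ z := by
    intro σ z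
    rw [RingEquiv.symm_apply_eq, sinv']
  -- the lift of `s τ`
  obtain ⟨γ, hγ⟩ := exists_lift hG3 hC hO hun (s τ) (st τ hτ.1) (fun c hc => by
    rw [hs.const, ← map_sub, hO.nonunit]; exact hτ.2 c hc) (hs.fixx τ)
  have hpow : ∀ (n : ℕ), ∀ z ∈ O, (γ ^ n) z - s (τ ^ n) z ∈ O.nonunits := by
    intro n
    induction n with
    | zero =>
      intro z hz
      rw [pow_zero, pow_zero, map_one]
      change z - z ∈ _
      rw [sub_self]; exact nonunits_iff.2 ⟨zero_mem _, Or.inl rfl⟩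
    | succ n ih =>
      intro z hz
      rw [pow_succ, pow_succ, smul]
      change (γ ^ n) (γ z) - _ ∈ _
      have h1 : (γ ^ n) (γ z) - s (τ ^ n) (s τ z) =
          ((γ ^ n) (γ z) - s (τ ^ n) (γ z)) + s (τ ^ n) (γ z - s τ z) := by
        rw [map_sub]; ring
      rw [h1]
      exact non_add (ih _ ((gt γ z).2 hz)) ((stn _ (hτ.pow n).1 _).2 (hγ z hz))
  have hζℓ : (τ δ / δ) ^ ℓ = 1 := hB.ratio τ
  have hτζ : τ (τ δ / δ) = τ δ / δ := hτ.fix_root hℓ hζℓ
  have hτℓ : (τ ^ ℓ) δ = δ := by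
    have h1 : ∀ n : ℕ, (τ ^ n) δ = (τ δ / δ) ^ n * δ := by
      intro n
      induction n with
      | zero => rw [pow_zero, pow_zero, one_mul]; rfl
      | succ n ih =>
        rw [pow_succ']
        change τ ((τ ^ n) δ) = _
        rw [ih, map_mul, map_pow, hτζ, pow_succ, mul_assoc, div_mul_cancel₀ _ hδ0]
    rw [h1, hζℓ, one_mul]
  have hγℓ : γ ^ ℓ = 1 := by
    apply UL
    intro z hz
    change _ - z ∈ _
    have h1 : (γ ^ ℓ) z - z = ((γ ^ ℓ) z - s (τ ^ ℓ) z) + (s (τ ^ ℓ) z - z) := by ring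
    rw [h1]
    exact non_add (hpow ℓ z hz) (wgt _ (hτ.pow ℓ) hτℓ z hz)
  have hζ1 : τ δ / δ ≠ 1 := by
    intro h
    rw [div_eq_one_iff_eq hδ0] at h
    exact hτδ h
  have hγY : γ Y = algebraMap κ M (τ δ / δ) * Y := by
    obtain ⟨ζ, hζ, h1⟩ := hC.actY hY0 γ
    have h2 := hγ Y hYU.2.1
    rw [h1, hs.fixy, ← sub_mul, mul_comm, ← map_sub] at h2
    have h3 := (hO.nonunit).1 (non_of_isU_mul hYU h2)
    rw [h1, root_eq hℓ hp hζ hζℓ h3]
  have hγ1 : γ ≠ 1 := by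
    intro h
    rw [h] at hγY
    change Y = _ at hγY
    have h1 : algebraMap κ M (τ δ / δ) = 1 := by
      have h2 : algebraMap κ M (τ δ / δ) * Y = 1 * Y := by rw [← hγY, one_mul]
      exact mul_right_cancel₀ hY0 h2
    apply hζ1
    rw [← map_one (algebraMap κ M)] at h1
    exact (algebraMap κ M).injective h1
  have key : ∀ W' : Place κ M, (∃ e ∈ B, 0 < W'.ord (algebraMap R M x - algebraMap κ M e)) →
      Fixes W' (s τ) → Fixes W' γ := by
    rintro W' ⟨e', he', hWe'⟩ hfixτ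
    have hfixτ' : Fixes W' (s τ⁻¹) := by
      intro z
      rw [← hfixτ, sinv']
    obtain ⟨-, c, We, -, -, hc, hWc, hcY⟩ := hRot e' he'
    have hnor : Normal R M := by
      have := hC.gal
      infer_instance
    obtain ⟨g, hg⟩ := hCONJ R M W'.O We.O (trace_eq hC.rat e' hWe' hWc)
    have hgW : ∀ z, We.ord z = W'.ord (g z) := by
      let W1 := Place.comapEquiv W' (g : M ≃+* M) (RingEquiv.refl κ) (hconst g)
      have h1 : We = W1 := by
        apply Place.ext_O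
        ext z
        rw [hg, Place.mem_O, Place.mem_O]
        unfold Place.Reg
        change g z = 0 ∨ _ ↔ z = 0 ∨ _
        rw [map_eq_zero_iff g g.injective]
        rfl
      intro z
      rw [h1]; rfl
    let c' : M ≃ₐ[R] M := g * c * g⁻¹
    have hc'z : ∀ z, c' z = g (c (g⁻¹ z)) := fun z => rfl
    have hginv : ∀ z, g (g⁻¹ z) = z := fun z => g.apply_symm_apply z
    have hc' : Fixes W' c' := by
      intro z
      rw [hc'z, ← hgW, hc, hgW, hginv]
    have hY' : W'.ord Y = 1 := hC.ordY W' he' hWe'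
    have hc'Y : c' Y ≠ Y := by
      intro h
      obtain ⟨ξ, hξ, h1⟩ := hC.actY hY0 g⁻¹
      rw [hc'z, h1, map_mul, hconst, map_mul, hconst] at h
      have h2 : g (g⁻¹ Y) = Y := hginv Y
      rw [h1, map_mul, hconst] at h2
      have hξ0 : algebraMap κ M ξ ≠ 0 := by
        intro h0
        rw [h0, zero_mul] at h2
        exact hY0 h2.symm
      have h3 : g (c Y) = g Y := mul_left_cancel₀ hξ0 (h.trans h2.symm)
      exact hcY (g.injective h3)
    obtain ⟨ζ', hζ', hc'Y'⟩ := hC.actY hY0 c'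
    have hζ'1 : ζ' ≠ 1 := by
      rintro rfl
      apply hc'Y
      rw [hc'Y', map_one, one_mul]
    have hprim : IsPrimitiveRoot ζ' ℓ := by
      have h1 : orderOf ζ' = ℓ := orderOf_eq_prime hζ' hζ'1
      rw [← h1]
      exact IsPrimitiveRoot.orderOf ζ'
    obtain ⟨i, -, hi⟩ := hprim.eq_pow_of_pow_eq_one hζℓ
    let c2 : M ≃ₐ[R] M := c' ^ i
    have hc2 : Fixes W' c2 := hc'.pow i
    have hpowY : ∀ n : ℕ, (c' ^ n) Y = algebraMap κ M (ζ' ^ n) * Y := by
      intro n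
      induction n with
      | zero => rw [pow_zero, pow_zero, map_one, one_mul]; rfl
      | succ n ih =>
        rw [pow_succ, pow_succ]
        change (c' ^ n) (c' Y) = _
        rw [hc'Y', map_mul, hconst, ih, map_mul]
        ring
    have hc2Y : c2 Y = algebraMap κ M (τ δ / δ) * Y := by
      rw [← hi]; exact hpowY i
    have hc2ℓ : c2 ^ ℓ = 1 := by
      refine hC.stabR hSTAB W' _ (hc2.pow ℓ) Y hY' ?_
      have h1 : c2 ^ ℓ = c' ^ (i * ℓ) := (pow_mul c' i ℓ).symm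
      rw [h1, hpowY, pow_mul, hi, hζℓ, map_one, one_mul]
    -- `s τ` commutes with `c2`
    obtain ⟨θ, hθ⟩ := conjR hC.rat (s τ⁻¹) ((τ⁻¹ : κ ≃ₐ[k] κ) : κ ≃+* κ) (hs.const τ⁻¹)
      (hs.fixx τ⁻¹) c2
    have hθ' : ∀ z, θ z = s τ (c2 (s τ⁻¹ z)) := by
      intro z
      rw [hθ, ssymm, inv_inv]
    have hζ0 : τ δ / δ ≠ 0 := by
      intro h
      rw [h, zero_pow hp.ne'] at hζℓ
      exact zero_ne_one hζℓ
    have hτinv : τ⁻¹ δ / δ = (τ δ / δ)⁻¹ := by
      have h1 : τ (τ⁻¹ δ / δ) = τ ((τ δ / δ)⁻¹) := by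
        rw [map_inv₀, hτζ, map_div₀, inv_div]
        congr 1
        exact τ.apply_symm_apply δ
      exact τ.injective h1
    have hθY : θ Y = algebraMap κ M (τ δ / δ) * Y := by
      rw [hθ', hs.fixy, hτinv, map_mul, hconst, hc2Y, ← mul_assoc, ← map_mul,
        inv_mul_cancel₀ hζ0, map_one, one_mul, hs.fixy]
    have hθW : Fixes W' θ := by
      intro z
      rw [hθ', hfixτ, hc2, hfixτ']
    have hθc : θ = c2 := by
      have h1 : c2⁻¹ * θ = 1 := by
        refine hC.stabR hSTAB W' _ (hc2.inv.mul hθW) Y hY' ?_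
        change c2.symm (θ Y) = Y
        rw [AlgEquiv.symm_apply_eq, hθY, hc2Y]
      exact (inv_mul_eq_one.1 h1).symm
    have hcomm : ∀ z, s τ (c2 z) = c2 (s τ z) := by
      intro z
      have h1 := hθ' (s τ z)
      rw [sinv, hθc] at h1
      exact h1.symm
    have hcomm' : γ * c2 = c2 * γ := by
      apply UL
      intro z hz
      change γ (c2 z) - c2 (γ z) ∈ _
      have h1 : γ (c2 z) - c2 (γ z) = (γ (c2 z) - s τ (c2 z)) - c2 (γ z - s τ z) := by
        rw [hcomm, map_sub]; ring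
      rw [h1]
      exact non_sub (hγ _ ((gt c2 z).2 hz)) ((gtn c2 _).2 (hγ z hz))
    have hηY : (γ * c2⁻¹) Y = Y := by
      change γ (c2.symm Y) = Y
      have h1 : c2.symm Y = algebraMap κ M (τ δ / δ)⁻¹ * Y := by
        rw [AlgEquiv.symm_apply_eq, map_mul, hconst, hc2Y, ← mul_assoc, ← map_mul,
          inv_mul_cancel₀ hζ0, map_one, one_mul]
      rw [h1, map_mul, hconst, hγY, ← mul_assoc, ← map_mul, inv_mul_cancel₀ hζ0, map_one, one_mul]
    have hη1 : γ * c2⁻¹ = 1 := by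
      by_contra hne
      have hηℓ : (γ * c2⁻¹) ^ ℓ = 1 := by
        have hcm : Commute γ c2⁻¹ := (show Commute γ c2 from hcomm').inv_right
        rw [hcm.mul_pow, hγℓ, inv_pow, hc2ℓ, inv_one, mul_one]
      obtain ⟨W2, hW2⟩ := hEXF ℓ κ R M x B Y hC _ hηℓ hne
      exact (hC.fixed hSTAB W2 _ hW2 hne).1 hηY
    have hγc : γ = c2 := by
      rw [mul_inv_eq_one] at hη1
      exact hη1
    rw [hγc]
    exact hc2
  intro W W' hW hW' h1 h2
  exact hUNQ ℓ κ R M x B Y hC γ hγℓ hγ1 W W' (key W hW h1) (key W' hW' h2)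

theorem ut : S_UT := ut' a_exf a_unq a_stab a_conj a_g2 a_g3 a_gex a_gun a_wgt

end Pool.Agent.Y157.PV
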