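import Pool.Agent.Y157.PV.Model
import Pool.Agent.Y157.PV.UT

/-! # Valuation rings of `M` fixed by automorphisms -/

set_option autoImplicit false
set_option linter.all false

open Polynomial FF

namespace Pool.Agent.Y157.PV

open Pool.Agent.Y157.PS

theorem toPlace {ℓ : ℕ} [Fact ℓ.Prime] {k κ F N : Type} [Field k] [Field κ] [Field F] [Field N]
    [Algebra k κ] [Algebra F N] {emb : κ →+* N} {B : Finset κ} {δ : κ} {x y : F}
    (m : Model ℓ k κ F N emb B δ x y) (W : ValuationSubring N) (hc : ∀ c, emb c ∈ W) {e : κ}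
    (he : algebraMap F N x - emb e ∈ W.nonunits) :
    ∃ Q : Place κ m.M, (∀ z, z ∈ Q.O ↔ m.eqv z ∈ W) ∧
      0 < Q.ord (algebraMap m.R m.M m.x' - algebraMap κ m.M e) := by
  have hmem' : ∀ z : m.M, z ∈ W.comap (m.eqv : m.M →+* N) ↔ m.eqv z ∈ W := fun z => Iff.rfl
  have hnon' : ∀ z : m.M, z ∈ (W.comap (m.eqv : m.M →+* N)).nonunits ↔ m.eqv z ∈ W.nonunits :=
    fun z => comap_non m.eqv W z
  have h1 : algebraMap m.R m.M m.x' - algebraMap κ m.M e ∈
      (W.comap (m.eqv : m.M →+* N)).nonunits := by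
    rw [hnon', map_sub, m.hx, m.hc]
    exact he
  have hne : algebraMap m.R m.M m.x' - algebraMap κ m.M e ≠ 0 := by
    intro h0
    have h2 : Transcendental κ (algebraMap m.R m.M m.x') :=
      (transcendental_algebraMap_iff (algebraMap m.R m.M).injective).2 m.cov.rat.trans
    apply h2
    rw [sub_eq_zero.1 h0]
    exact isAlgebraic_algebraMap _
  have htop : W.comap (m.eqv : m.M →+* N) ≠ ⊤ := by
    intro h0
    rw [h0, nonunits_iff] at h1
    rcases h1.2 with h2 | h2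
    · exact hne h2
    · exact h2 trivial
  obtain ⟨Q, hQ, -⟩ := m.cov.loc _ (fun c => (hmem' _).2 (by rw [m.hc]; exact hc c)) htop
  refine ⟨Q, fun z => by rw [hQ, hmem'], ?_⟩
  rw [← O_non_iff Q hne, hQ]
  exact h1

/-- an automorphism of `N` over `F` which fixes the constants and a place above a branch point is
trivial -/
theorem rigid {ℓ : ℕ} [Fact ℓ.Prime] {k κ F N : Type} [Field k] [CharZero k] [Field κ]
    [IsAlgClosed κ] [Field F] [Field N]
    [Algebra k κ] [Algebra F N] {emb : κ →+* N} {B : Finset κ} {δ : κ} {x y : F}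
    (m : Model ℓ k κ F N emb B δ x y) (g : N ≃ₐ[F] N) (hg : ∀ c, g (emb c) = emb c)
    (W : ValuationSubring N) (hc : ∀ c, emb c ∈ W) {e : κ} (heB : e ∈ B)
    (he : algebraMap F N x - emb e ∈ W.nonunits) (hW : ∀ z, g z ∈ W ↔ z ∈ W) : g = 1 := by
  have hch : CharZero κ := charZero_of_injective_algebraMap (algebraMap k κ).injective
  obtain ⟨Q, hQ, hQe⟩ := toPlace m W hc he
  let e₀ : m.M ≃+* m.M := (m.eqv.trans (g : N ≃+* N)).trans m.eqv.symm
  have he₀ : ∀ z, m.eqv (e₀ z) = g (m.eqv z) := fun z => m.eqv.apply_symm_apply _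
  have hcon : ∀ c, e₀ (algebraMap κ m.M c) = algebraMap κ m.M c := by
    intro c
    apply m.eqv.injective
    rw [he₀, m.hc, hg]
  have hx0 : e₀ (algebraMap m.R m.M m.x') = algebraMap m.R m.M m.x' := by
    apply m.eqv.injective
    rw [he₀, m.hx, g.commutes]
  have hY0 : e₀ m.Y' = m.Y' := by
    apply m.eqv.injective
    rw [he₀, m.hy, map_mul, hg, g.commutes]
  have hpoly : ∀ p : κ[X], e₀ (algebraMap m.R m.M (aeval m.x' p)) =
      algebraMap m.R m.M (aeval m.x' p) := by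
    intro p
    rw [← aeval_algebraMap_apply]
    have h3 : (e₀ : m.M →+* m.M) (p.eval₂ (algebraMap κ m.M) (algebraMap m.R m.M m.x')) =
        p.eval₂ ((e₀ : m.M →+* m.M).comp (algebraMap κ m.M))
          ((e₀ : m.M →+* m.M) (algebraMap m.R m.M m.x')) := hom_eval₂ _ _ _ _
    rw [aeval_def]
    change (e₀ : m.M →+* m.M) _ = _
    rw [h3]
    change p.eval₂ _ (e₀ (algebraMap m.R m.M m.x')) = _
    rw [hx0]
    congr 1
    ext c
    exact hcon c
  have hR : ∀ t : m.R, e₀ (algebraMap m.R m.M t) = algebraMap m.R m.M t := by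
    intro t
    obtain ⟨p, q, hq, h⟩ := m.cov.rat.exists_div t
    rw [h, map_div₀, map_div₀, hpoly, hpoly]
  let γ : m.M ≃ₐ[m.R] m.M := AlgEquiv.ofRingEquiv (f := e₀) hR
  have hγ : ∀ z, γ z = e₀ z := fun z => rfl
  have hfix : Fixes Q γ := by
    have h1 : Fixes Q e₀ := by
      refine fixes_of_O Q e₀ (RingEquiv.refl κ) hcon fun z => ?_
      rw [hQ, hQ, he₀, hW]
    exact h1
  have hYord : Q.ord m.Y' = 1 := m.cov.ordY Q heB hQe
  have h1 : γ = 1 := m.cov.stabR a_stab Q γ hfix m.Y' hYord hY0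
  ext z
  have h2 := he₀ (m.eqv.symm z)
  rw [← hγ, h1, m.eqv.apply_symm_apply] at h2
  rw [← h2]
  change m.eqv (m.eqv.symm z) = z
  exact m.eqv.apply_symm_apply z

/-- the valuation ring fixed by the image of an inertia element `τ` with `τ δ ≠ δ` is unique -/
theorem uniq {ℓ : ℕ} [Fact ℓ.Prime] {A k κ F N : Type} [CommRing A] [IsDomain A]
    [IsDiscreteValuationRing A] [Finite (IsLocalRing.ResidueField A)] [Field k] [CharZero k]
    [Algebra A k] [IsFractionRing A k] [Field κ] [Algebra k κ] [Algebra A κ]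
    [IsScalarTower A k κ] [IsAlgClosure k κ] [Field F] [Field N] [Algebra F N]
    {emb : κ →+* N} {B : Finset κ} {δ : κ} {x y : F}
    (md : Model ℓ k κ F N emb B δ x y)
    (V : ValuationSubring κ) (hVa : ∀ a : A, algebraMap A κ a ∈ V)
    (hVm : ∀ a ∈ IsLocalRing.maximalIdeal A, algebraMap A κ a ∈ V.nonunits)
    (ϖ : A) (m : ℤ) (hBase : Base ℓ A k κ V ϖ δ m) (hδ0 : δ ≠ 0) (hGood : Good V B)
    (S : (κ ≃ₐ[k] κ) →* (N ≃ₐ[F] N))
    (hcont : ∀ z : N, ∃ E : IntermediateField k κ, FiniteDimensional k E ∧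
      ∀ σ ∈ E.fixingSubgroup, S σ z = z)
    (hcompat : ∀ σ c, S σ (emb c) = emb (σ c))
    (τ : κ ≃ₐ[k] κ) (hτ : Ine V τ) (hτδ : τ δ ≠ δ)
    (W W' : ValuationSubring N) (hc : ∀ c, emb c ∈ W) (hc' : ∀ c, emb c ∈ W') {e e' : κ}
    (heB : e ∈ B) (heB' : e' ∈ B)
    (he : algebraMap F N x - emb e ∈ W.nonunits) (he' : algebraMap F N x - emb e' ∈ W'.nonunits)
    (hW : ∀ z, S τ z ∈ W ↔ z ∈ W) (hW' : ∀ z, S τ z ∈ W' ↔ z ∈ W') : W = W' := by
  classical
  have hkb : IsAlgClosed κ := IsAlgClosure.isAlgClosed k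
  have hch : CharZero κ := charZero_of_injective_algebraMap (algebraMap k κ).injective
  let s' : (κ ≃ₐ[k] κ) →* RingAut md.M := conjSec md.eqv S
  have hs' : ∀ σ z, md.eqv (s' σ z) = S σ (md.eqv z) := fun σ z => conjSec_apply md.eqv S σ z
  have hconst : ∀ σ c, s' σ (algebraMap κ md.M c) = algebraMap κ md.M (σ c) := by
    intro σ c
    apply md.eqv.injective
    rw [hs', md.hc, md.hc, hcompat]
  have hbase : ∀ σ (z : F) (w : md.M), md.eqv w = algebraMap F N z → s' σ w = w := by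
    intro σ z w hw
    apply md.eqv.injective
    rw [hs', hw]
    exact (S σ).commutes z
  have hyY : md.Y' = algebraMap κ md.M δ * md.eqv.symm (algebraMap F N y) := by
    apply md.eqv.injective
    rw [md.hy, map_mul, md.eqv.apply_symm_apply, md.hc]
  have hSec : Sec k κ md.R md.M md.x' md.Y' δ s' := by
    refine ⟨hconst, fun σ => hbase σ x _ md.hx, fun σ => ?_, fun z => ?_⟩
    · have h2 : algebraMap κ md.M (σ δ / δ) * md.Y' =
          algebraMap κ md.M (σ δ) * md.eqv.symm (algebraMap F N y) := by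
        rw [hyY, ← mul_assoc, ← map_mul, div_mul_cancel₀ _ hδ0]
      rw [h2]
      conv_lhs => rw [hyY]
      rw [map_mul, hconst, hbase σ y _ (md.eqv.apply_symm_apply _)]
    · obtain ⟨E, hE, hE'⟩ := hcont (md.eqv z)
      refine ⟨E, hE, fun σ hσ => md.eqv.injective ?_⟩
      rw [hs', hE' σ hσ]
  obtain ⟨F0, iF0, r, hr, ⟨D⟩⟩ := a_ndisc A k κ V hVa hVm ℓ hBase.lunit
  obtain ⟨Q, hQ, hQe⟩ := toPlace md W hc he
  obtain ⟨Q', hQ', hQe'⟩ := toPlace md W' hc' he'
  have h1 : Fixes Q (s' τ) := by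
    refine fixes_of_O Q (s' τ) (τ : κ ≃+* κ) (fun c => hconst τ c) fun z => ?_
    rw [hQ, hQ, hs', hW]
  have h2 : Fixes Q' (s' τ) := by
    refine fixes_of_O Q' (s' τ) (τ : κ ≃+* κ) (fun c => hconst τ c) fun z => ?_
    rw [hQ', hQ', hs', hW']
  have h3 := ut ℓ A k κ md.R md.M V ϖ δ m hBase md.x' B md.Y' md.cov hGood F0 r hr D s' hSec τ hτ hτδ
    Q Q' ⟨e, heB, hQe⟩ ⟨e', heB', hQe'⟩ h1 h2
  ext z
  rw [← md.eqv.apply_symm_apply z, ← hQ, h3, hQ']

end Pool.Agent.Y157.PV
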