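import Pool.Agent.Y157.PV.Stm

/-! # The model of the geometrically pro-`ℓ` extension -/

set_option autoImplicit false
set_option linter.all false

open Polynomial FF

namespace Pool.Agent.Y157.PV

open Pool.Agent.Y157.PS

theorem model : S_MODEL := by
  intro ℓ _ k F Ω _ _ _ _ _ _ _ _ _ _ f hf hdvd h3 d hd0 x y hx hxy hF δ hδ
  classical
  have hℓp : ℓ.Prime := Fact.out
  have hac : IsAlgClosure k (algebraicClosure k Ω) := inferInstance
  have hkb : IsAlgClosed (algebraicClosure k Ω) := hac.1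
  have hch : CharZero (algebraicClosure k Ω) :=
    charZero_of_injective_algebraMap (algebraMap k (algebraicClosure k Ω)).injective
  have hf0 : f ≠ 0 := hf.ne_zero
  have hlc0 : f.leadingCoeff ≠ 0 := leadingCoeff_ne_zero.2 hf0
  have hδ0 : δ ≠ 0 := by
    rintro rfl
    rw [zero_pow hℓp.ne_zero] at hδ
    exact (_root_.map_ne_zero _).2 (div_ne_zero hd0 hlc0) hδ.symm
  -- the roots
  let φ : k →+* (algebraicClosure k Ω) := algebraMap k (algebraicClosure k Ω)
  obtain ⟨P, hP⟩ : ∃ P : (algebraicClosure k Ω)[X], P = f.map φ := ⟨_, rfl⟩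
  have hPsep : P.Separable := by rw [hP]; exact hf.map
  have hnd : P.roots.Nodup := nodup_roots hPsep
  have hP0 : P ≠ 0 := hPsep.ne_zero
  have hPdeg : P.natDegree = f.natDegree := by rw [hP, natDegree_map]
  have hPlc : P.leadingCoeff = φ f.leadingCoeff := by rw [hP, leadingCoeff_map]
  have hφlc0 : φ f.leadingCoeff ≠ 0 := (_root_.map_ne_zero φ).2 hlc0
  obtain ⟨B, hBdef⟩ : ∃ B : Finset (algebraicClosure k Ω), B = P.roots.toFinset := ⟨_, rfl⟩
  have hmemB : ∀ θ, θ ∈ B ↔ aeval θ f = 0 := by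
    intro θ
    rw [hBdef, Multiset.mem_toFinset, mem_roots hP0, IsRoot.def, hP, eval_map]
    rfl
  have hcard : B.card = f.natDegree := by
    rw [hBdef, Multiset.toFinset_card_of_nodup hnd, ← hPdeg]
    exact (IsAlgClosed.splits P).natDegree_eq_card_roots.symm
  -- the product formula
  have hPx : ∀ z : Ω, P.eval₂ (algebraMap (algebraicClosure k Ω) Ω) z =
      algebraMap (algebraicClosure k Ω) Ω (φ f.leadingCoeff) *
        ∏ e ∈ B, (z - algebraMap (algebraicClosure k Ω) Ω e) := by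
    intro z
    have h1 := (IsAlgClosed.splits P).eq_prod_roots
    rw [hPlc] at h1
    have h6 : ∏ e ∈ B, (z - algebraMap (algebraicClosure k Ω) Ω e) =
        (P.roots.map fun e => z - algebraMap (algebraicClosure k Ω) Ω e).prod := by
      rw [hBdef, Finset.prod, Multiset.toFinset_val, Multiset.dedup_eq_self.2 hnd]
    rw [h6]
    conv_lhs => rw [h1]
    rw [eval₂_mul, eval₂_C, ← coe_eval₂RingHom, map_multiset_prod, Multiset.map_map]
    congr 2
    refine Multiset.map_congr rfl fun a _ => ?_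
    simp
  have hfx : algebraMap F Ω (aeval x f) =
      P.eval₂ (algebraMap (algebraicClosure k Ω) Ω) (algebraMap F Ω x) := by
    rw [aeval_def, hom_eval₂, hP, eval₂_map, ← IsScalarTower.algebraMap_eq k F Ω,
      ← IsScalarTower.algebraMap_eq k (algebraicClosure k Ω) Ω]
  obtain ⟨Y0, hY0⟩ : ∃ Y0 : Ω, Y0 = (δ : Ω) * algebraMap F Ω y := ⟨_, rfl⟩
  have hY : Y0 ^ ℓ = ∏ e ∈ B, (algebraMap F Ω x - algebraMap (algebraicClosure k Ω) Ω e) := by
    have h1 := congrArg (algebraMap F Ω) hxy
    rw [map_mul, map_pow, ← IsScalarTower.algebraMap_apply, hfx, hPx] at h1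
    have h5 : algebraMap (algebraicClosure k Ω) Ω (φ f.leadingCoeff) ≠ 0 :=
      (_root_.map_ne_zero _).2 hφlc0
    have h6 : (δ : Ω) ^ ℓ = algebraMap k Ω d /
        algebraMap (algebraicClosure k Ω) Ω (φ f.leadingCoeff) := by
      have h7 := congrArg (algebraMap (algebraicClosure k Ω) Ω) hδ
      rw [map_pow, map_div₀, map_div₀, ← IsScalarTower.algebraMap_apply] at h7
      exact h7
    rw [hY0, mul_pow, h6, div_mul_eq_mul_div, h1, mul_div_cancel_left₀ _ h5]
  -- the covering field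
  have hX0 : Transcendental k (algebraMap F Ω x) :=
    (transcendental_algebraMap_iff (R := k) (algebraMap F Ω).injective (a := x)).2 hx
  have hrat := ratF_adj (trans_up hX0)
  have hYR : Y0 ^ ℓ ∈ IntermediateField.adjoin (algebraicClosure k Ω) {algebraMap F Ω x} := by
    rw [hY]
    exact prod_mem fun e _ => sub_mem (IntermediateField.mem_adjoin_simple_self _ _)
      (IntermediateField.algebraMap_mem _ e)
  have hclR := closure_R hF δ hδ0 hℓp.pos (hY0 ▸ hYR)
  refine ⟨B, hmemB, ?_⟩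
  obtain ⟨M, hM⟩ : ∃ M : IntermediateField (IntermediateField.adjoin (algebraicClosure k Ω)
      {algebraMap F Ω x}) Ω, ∀ z, z ∈ M ↔ z ∈ maxPro ℓ (algebraicClosure k Ω)
        (IntermediateField.adjoin (IntermediateField.adjoin (algebraicClosure k Ω)
          {algebraMap F Ω x}) {Y0}) Ω :=
    ⟨(maxPro ℓ (algebraicClosure k Ω) (IntermediateField.adjoin (IntermediateField.adjoin
      (algebraicClosure k Ω) {algebraMap F Ω x}) {Y0}) Ω).restrictScalars _, fun z => Iff.rfl⟩
  have hYM : Y0 ∈ M := by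
    rw [hM]
    exact (maxPro ℓ (algebraicClosure k Ω) (IntermediateField.adjoin (IntermediateField.adjoin
      (algebraicClosure k Ω) {algebraMap F Ω x}) {Y0}) Ω).algebraMap_mem
      ⟨Y0, IntermediateField.mem_adjoin_simple_self _ _⟩
  have hCov := a_cov ℓ (algebraicClosure k Ω) (IntermediateField.adjoin (algebraicClosure k Ω)
      {algebraMap F Ω x}) Ω ⟨algebraMap F Ω x, IntermediateField.mem_adjoin_simple_self _ _⟩ hrat B
      (by rw [hcard]; exact hdvd) (by rw [hcard]; exact h3) Y0 hY M hM ⟨Y0, hYM⟩ rfl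
  have hMN : ∀ z, z ∈ M ↔ z ∈ geomPro ℓ k F Ω := fun z =>
    (hM z).trans (by rw [hY0]; exact maxPro_geom ℓ k hF δ hδ0 z)
  let eqv : M ≃+* geomPro ℓ k F Ω :=
    { toFun := fun w => ⟨w.1, (hMN _).1 w.2⟩
      invFun := fun w => ⟨w.1, (hMN _).2 w.2⟩
      left_inv := fun w => rfl
      right_inv := fun w => rfl
      map_mul' := fun w w' => rfl
      map_add' := fun w w' => rfl }
  exact ⟨{ R := _, M := M, x' := _, Y' := _, cov := hCov, eqv := eqv
           hc := fun c => rfl
           hx := rfl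
           hy := Subtype.ext hY0 }⟩

/-- a valuation ring above a branch point -/
theorem branch {ℓ : ℕ} {k F Ω : Type} [Field k] [CharZero k] [Field F] [Field Ω]
    [Algebra k F] [Algebra F Ω] [Algebra k Ω] [IsScalarTower k F Ω] [IsAlgClosed Ω]
    (f : k[X]) (hf : f.Separable) (x : F) (hx : Transcendental k x)
    (W : ValuationSubring (geomPro ℓ k F Ω))
    (hW1 : ∀ c : k, algebraMap F (geomPro ℓ k F Ω) (algebraMap k F c) ∈ W)
    (hW2 : algebraMap F (geomPro ℓ k F Ω) (aeval x f) ∈ W.nonunits) :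
    (∀ c, emb ℓ k F Ω c ∈ W) ∧ ∃ e, aeval e f = 0 ∧
      algebraMap F (geomPro ℓ k F Ω) x - emb ℓ k F Ω e ∈ W.nonunits := by
  classical
  have hac : IsAlgClosure k (algebraicClosure k Ω) := inferInstance
  have hkb : IsAlgClosed (algebraicClosure k Ω) := hac.1
  have hf0 : f ≠ 0 := hf.ne_zero
  have hconst : ∀ c, emb ℓ k F Ω c ∈ W := by
    intro c
    have h5 : IsIntegral k (c : Ω) := c.2
    obtain ⟨p, hp, hpc⟩ := h5
    refine alg_mem ((algebraMap F (geomPro ℓ k F Ω)).comp (algebraMap k F)) W hW1 _ p hp ?_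
    apply (algebraMap (geomPro ℓ k F Ω) Ω).injective
    rw [hom_eval₂, map_zero]
    have h6 : (algebraMap (geomPro ℓ k F Ω) Ω).comp
        ((algebraMap F (geomPro ℓ k F Ω)).comp (algebraMap k F)) = algebraMap k Ω := by
      ext a
      exact (IsScalarTower.algebraMap_apply k F Ω a).symm
    have h7 : algebraMap (geomPro ℓ k F Ω) Ω (emb ℓ k F Ω c) = (c : Ω) := rfl
    rw [h6, h7]
    exact hpc
  refine ⟨hconst, ?_⟩
  by_contra hno
  push Not at hno
  let φ : k →+* (algebraicClosure k Ω) := algebraMap k (algebraicClosure k Ω)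
  obtain ⟨P, hP⟩ : ∃ P : (algebraicClosure k Ω)[X], P = f.map φ := ⟨_, rfl⟩
  have hP0 : P ≠ 0 := by rw [hP]; exact (Polynomial.map_ne_zero_iff φ.injective).2 hf0
  have hlc : P.leadingCoeff ≠ 0 := leadingCoeff_ne_zero.2 hP0
  have h1 := (IsAlgClosed.splits P).eq_prod_roots
  have hfN : algebraMap F (geomPro ℓ k F Ω) (aeval x f) =
      P.eval₂ (emb ℓ k F Ω) (algebraMap F (geomPro ℓ k F Ω) x) := by
    rw [aeval_def, hom_eval₂, hP, eval₂_map]
    congr 1
    ext a
    exact (IsScalarTower.algebraMap_apply k F Ω a).symm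
  have hfN' : algebraMap F (geomPro ℓ k F Ω) (aeval x f) = emb ℓ k F Ω P.leadingCoeff *
      (P.roots.map fun e => algebraMap F (geomPro ℓ k F Ω) x - emb ℓ k F Ω e).prod := by
    rw [hfN]
    conv_lhs => rw [h1]
    rw [eval₂_mul, eval₂_C, ← coe_eval₂RingHom, map_multiset_prod, Multiset.map_map]
    congr 2
    refine Multiset.map_congr rfl fun a _ => ?_
    simp
  have h8 : (algebraMap F (geomPro ℓ k F Ω) (aeval x f))⁻¹ ∈ W := by
    rw [hfN', mul_inv, ← map_inv₀]
    refine mul_mem (hconst _) ?_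
    rw [← Multiset.prod_map_inv]
    refine multiset_prod_mem _ fun z hz => ?_
    obtain ⟨e, he, rfl⟩ := Multiset.mem_map.1 hz
    apply inv_mem_of_not_nonunit
    refine hno e ?_
    have h9 := (mem_roots hP0).1 he
    rw [IsRoot.def, hP, eval_map] at h9
    exact h9
  rcases (nonunits_iff.1 hW2).2 with h9 | h9
  · rw [map_eq_zero] at h9
    exact hf0 ((transcendental_iff.1 hx) _ h9)
  · exact h9 h8

end Pool.Agent.Y157.PV
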