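import Pool.Agent.Y157.PS.All

/-!
# Sections and one prime: statements of the parts

(helper157, project PV.)
-/

set_option autoImplicit false
set_option linter.all false

open Polynomial FF

namespace Pool.Agent.Y157.PV

open Pool.Agent.Y157.PS

/-- a single element `τ` of the inertia group which moves `δ` determines the place -/
def S_UT : Prop :=
  ∀ (ℓ : ℕ) [Fact ℓ.Prime] (A k κ R M : Type) [CommRing A] [IsDomain A]
    [IsDiscreteValuationRing A] [Field k] [Field κ] [Algebra A k] [Algebra k κ] [Algebra A κ]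
    [IsScalarTower A k κ] [IsFractionRing A k] [CharZero k] [IsAlgClosure k κ]
    [Finite (IsLocalRing.ResidueField A)] [Field R] [Field M] [Algebra κ R] [Algebra R M]
    [Algebra κ M] [IsScalarTower κ R M] (V : ValuationSubring κ) (ϖ : A) (δ : κ) (m : ℤ),
    Base ℓ A k κ V ϖ δ m → ∀ (x : R) (B : Finset κ) (Y : M), Cov ℓ κ R M x B Y → Good V B →
    ∀ (F : Type) [Field F] (r : V →+* F), Res V r → ∀ D : Disc ℓ V r,
    ∀ s : (κ ≃ₐ[k] κ) →* RingAut M, Sec k κ R M x Y δ s →
    ∀ τ : κ ≃ₐ[k] κ, Ine V τ → τ δ ≠ δ →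
    ∀ W W' : Place κ M, (∃ e ∈ B, 0 < W.ord (algebraMap R M x - algebraMap κ M e)) →
      (∃ e ∈ B, 0 < W'.ord (algebraMap R M x - algebraMap κ M e)) →
      Fixes W (s τ) → Fixes W' (s τ) → W = W'

/-- the covering field `M` with its structure, identified with a field `N` -/
structure Model (ℓ : ℕ) (k κ F N : Type) [Field k] [Field κ] [Field F] [Field N] [Algebra k κ]
    [Algebra F N] (emb : κ →+* N) (B : Finset κ) (δ : κ) (x y : F) : Type 1 where
  R : Type
  M : Type
  [fR : Field R]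
  [fM : Field M]
  [aR : Algebra κ R]
  [aRM : Algebra R M]
  [aM : Algebra κ M]
  [tow : IsScalarTower κ R M]
  x' : R
  Y' : M
  cov : Cov ℓ κ R M x' B Y'
  eqv : M ≃+* N
  hc : ∀ c, eqv (algebraMap κ M c) = emb c
  hx : eqv (algebraMap R M x') = algebraMap F N x
  hy : eqv Y' = emb δ * algebraMap F N y

attribute [instance] Model.fR Model.fM Model.aR Model.aRM Model.aM Model.tow

/-- the embedding of the constants -/
noncomputable def emb (ℓ : ℕ) (k F Ω : Type) [Field k] [Field F] [Field Ω] [Algebra k F]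
    [Algebra F Ω] [Algebra k Ω] [IsScalarTower k F Ω] : algebraicClosure k Ω →+* geomPro ℓ k F Ω where
  toFun c := ⟨(c : Ω), const_geomPro ℓ k c⟩
  map_one' := rfl
  map_mul' _ _ := rfl
  map_zero' := rfl
  map_add' _ _ := rfl

/-- the geometrically pro-`ℓ` extension has a model -/
def S_MODEL : Prop :=
  ∀ (ℓ : ℕ) [Fact ℓ.Prime] (k F Ω : Type) [Field k] [CharZero k] [Field F] [Field Ω]
    [Algebra k F] [Algebra F Ω] [Algebra k Ω] [IsScalarTower k F Ω] [IsAlgClosed Ω]
    [Algebra.IsAlgebraic F Ω] (f : k[X]), f.Separable → ℓ ∣ f.natDegree → 3 ≤ f.natDegree →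
    ∀ (d : k), d ≠ 0 → ∀ (x y : F), Transcendental k x →
      algebraMap k F d * y ^ ℓ = aeval x f →
      IntermediateField.adjoin k {x, y} = (⊤ : IntermediateField k F) →
    ∀ (δ : algebraicClosure k Ω),
      δ ^ ℓ = algebraMap k (algebraicClosure k Ω) (d / f.leadingCoeff) →
    ∃ B : Finset (algebraicClosure k Ω), (∀ θ, θ ∈ B ↔ aeval θ f = 0) ∧
      Nonempty (Model ℓ k (algebraicClosure k Ω) F (geomPro ℓ k F Ω) (emb ℓ k F Ω) B δ x y)

end Pool.Agent.Y157.PV
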